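import Pool.Agent.Helper8.UN.Stmts

set_option autoImplicit false

open Finset

namespace Pool.Agent.Helper8.UN

lemma b3n_ev : ∃ n₀ : ℕ, ∀ n ≥ n₀, 1000 ≤ Real.log n ∧ Real.log n ≤ 1 / 1000000 * (n : ℝ) := by
  have h1 : ∀ᶠ n : ℕ in Filter.atTop, 1000 ≤ Real.log n :=
    (Real.tendsto_log_atTop.comp tendsto_natCast_atTop_atTop).eventually_ge_atTop 1000
  have h2 : ∀ᶠ n : ℕ in Filter.atTop, Real.log n ≤ 1 / 1000000 * (n : ℝ) := by
    have h3 := (Real.isLittleO_log_id_atTop.def (show (0 : ℝ) < 1 / 1000000 by norm_num))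
    have h4 := tendsto_natCast_atTop_atTop.eventually h3
    filter_upwards [h4] with n hn
    simp only [id, Real.norm_eq_abs] at hn
    calc Real.log n ≤ |Real.log n| := le_abs_self _
      _ ≤ 1 / 1000000 * |(n : ℝ)| := hn
      _ = 1 / 1000000 * (n : ℝ) := by rw [abs_of_nonneg (Nat.cast_nonneg n)]
  obtain ⟨n₀, h⟩ := Filter.eventually_atTop.mp (h1.and h2)
  exact ⟨n₀, h⟩

/-- `C(n, s) ≤ (e n / s)^s` -/
lemma b3n_choose (n s : ℕ) (hs : 1 ≤ s) :
    (n.choose s : ℝ) ≤ (Real.exp 1 * n / s) ^ s := by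
  have hs0 : (0 : ℝ) < s := by exact_mod_cast hs
  have h1 : (n.choose s : ℝ) ≤ (n : ℝ) ^ s / (s.factorial : ℝ) := Nat.choose_le_pow_div s n
  have h2 := Real.pow_div_factorial_le_exp (s : ℝ) hs0.le s
  have hf : (0 : ℝ) < (s.factorial : ℝ) := by exact_mod_cast s.factorial_pos
  have h3 : Real.exp (s : ℝ) = Real.exp 1 ^ s := by rw [← Real.exp_nat_mul, mul_one]
  have h4 : 1 / (s.factorial : ℝ) ≤ Real.exp 1 ^ s / (s : ℝ) ^ s := by
    rw [div_le_div_iff₀ hf (by positivity), one_mul, ← h3]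
    rw [div_le_iff₀ hf] at h2
    exact h2
  calc (n.choose s : ℝ) ≤ (n : ℝ) ^ s * (1 / (s.factorial : ℝ)) := by
        rw [mul_one_div]; exact h1
    _ ≤ (n : ℝ) ^ s * (Real.exp 1 ^ s / (s : ℝ) ^ s) :=
        mul_le_mul_of_nonneg_left h4 (by positivity)
    _ = (Real.exp 1 * n / s) ^ s := by rw [div_pow, mul_pow]; ring

/-- the second term -/
lemma b3n_T (n s : ℕ) (q : ℝ) (hL : 1000 ≤ Real.log n) (hs : 1999 * Real.log n ≤ s)
    (hq : 649 / 1000 * ((n : ℝ) / Real.log n) ≤ q) :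
    (n : ℝ) * (n.choose s : ℝ) / q ^ (s - 1) ≤ 1 / n := by
  have hL0 : 0 < Real.log n := by linarith
  have hn0 : (0 : ℝ) < n := by
    rcases Nat.eq_zero_or_pos n with h | h
    · subst h; simp at hL0
    · exact_mod_cast h
  have hs1 : 1 ≤ s := by
    have : (1 : ℝ) ≤ s := by linarith
    exact_mod_cast this
  have hs0 : (0 : ℝ) < s := by exact_mod_cast hs1
  obtain ⟨a, ha⟩ : ∃ a : ℝ, a = 649 / 1000 * ((n : ℝ) / Real.log n) := ⟨_, rfl⟩
  have ha0 : 0 < a := by rw [ha]; positivity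
  have han : a ≤ n := by
    rw [ha]
    have : (n : ℝ) / Real.log n ≤ n := div_le_self hn0.le (by linarith)
    linarith
  have hq' : a ≤ q := by rw [ha]; exact hq
  have hc := b3n_choose n s hs1
  have h1 : (n : ℝ) * (n.choose s : ℝ) / q ^ (s - 1) ≤
      (n : ℝ) * (Real.exp 1 * n / s) ^ s / a ^ (s - 1) := by
    apply div_le_div₀ (by positivity) (mul_le_mul_of_nonneg_left hc hn0.le) (by positivity)
    exact pow_le_pow_left₀ ha0.le hq' _
  have h2 : (n : ℝ) * (Real.exp 1 * n / s) ^ s / a ^ (s - 1) =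
      n * a * (Real.exp 1 * n / (s * a)) ^ s := by
    have e : a ^ s = a ^ (s - 1) * a := by
      rw [← pow_succ, Nat.sub_add_cancel hs1]
    rw [div_pow, div_pow, mul_pow (s : ℝ) a, e]
    field_simp
  have h3 : Real.exp 1 * n / (s * a) ≤ Real.exp (-3 / 1999) := by
    have hsa : 1297 * (n : ℝ) ≤ s * a := by
      calc 1297 * (n : ℝ) ≤ (1999 * Real.log n) * (649 / 1000 * ((n : ℝ) / Real.log n)) := by
            rw [show (1999 * Real.log n) * (649 / 1000 * ((n : ℝ) / Real.log n)) =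
              1999 * (649 / 1000) * n by field_simp]
            nlinarith
        _ ≤ s * a := by rw [ha]; exact mul_le_mul_of_nonneg_right hs (by positivity)
    have h4 : Real.exp 1 * n / (s * a) ≤ 1 / 400 := by
      rw [div_le_iff₀ (by positivity)]
      have := Real.exp_one_lt_d9
      nlinarith
    have h5 : (1 : ℝ) / 400 ≤ Real.exp (-3 / 1999) := by
      have := Real.add_one_le_exp (-3 / 1999 : ℝ)
      linarith
    linarith
  have h4 : (Real.exp 1 * n / (s * a)) ^ s ≤ 1 / (n : ℝ) ^ 3 := by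
    calc (Real.exp 1 * n / (s * a)) ^ s ≤ (Real.exp (-3 / 1999)) ^ s :=
          pow_le_pow_left₀ (by positivity) h3 s
      _ = Real.exp (-(3 * s / 1999)) := by rw [← Real.exp_nat_mul]; congr 1; ring
      _ ≤ Real.exp (-(3 * Real.log n)) := by
          apply Real.exp_le_exp.mpr
          linarith
      _ = 1 / (n : ℝ) ^ 3 := by
          rw [Real.exp_neg, show (3 : ℝ) * Real.log n = ((3 : ℕ) : ℝ) * Real.log n by norm_num,
            Real.exp_nat_mul, Real.exp_log hn0, one_div]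
  calc (n : ℝ) * (n.choose s : ℝ) / q ^ (s - 1)
      ≤ n * a * (Real.exp 1 * n / (s * a)) ^ s := by rw [← h2]; exact h1
    _ ≤ n * n * (1 / (n : ℝ) ^ 3) := by
        apply mul_le_mul (mul_le_mul_of_nonneg_left han hn0.le) h4 (by positivity) (by positivity)
    _ = 1 / n := by field_simp

theorem st_B3N : ST_B3N := by
  obtain ⟨n₀, hn₀⟩ := b3n_ev
  refine ⟨n₀, ?_⟩
  intro n hn D0 r k hD hr hk
  obtain ⟨hL, hLn⟩ := hn₀ n hn
  have hL0 : 0 < Real.log n := by linarith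
  have hn0 : (0 : ℝ) < n := by
    rcases Nat.eq_zero_or_pos n with h | h
    · subst h; simp at hL0
    · exact_mod_cast h
  have hn6 : (1000000 : ℝ) ≤ n := by linarith
  obtain ⟨a, ha⟩ : ∃ a : ℝ, a = (n : ℝ) / Real.log n := ⟨_, rfl⟩
  rw [← ha] at hD hk
  have ha0 : 0 < a := by rw [ha]; positivity
  have ha6 : 1000000 ≤ a := by
    rw [ha, le_div_iff₀ hL0]; linarith
  have hr4 : 4 ≤ r := by
    have : (4 : ℝ) ≤ r := by linarith
    exact_mod_cast this
  have hr1 : ((r - 1 : ℕ) : ℝ) = (r : ℝ) - 1 := by rw [Nat.cast_sub (by omega)]; norm_num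
  have hs : 1999 * Real.log n ≤ ((r - 1 : ℕ) : ℝ) := by rw [hr1]; linarith
  have hdiv : ((n / (r - 1) : ℕ) : ℝ) ≤ a / 1999 := by
    calc ((n / (r - 1) : ℕ) : ℝ) ≤ (n : ℝ) / ((r - 1 : ℕ) : ℝ) := Nat.cast_div_le
      _ ≤ (n : ℝ) / (1999 * Real.log n) :=
          div_le_div_of_nonneg_left hn0.le (by positivity) hs
      _ = a / 1999 := by rw [ha]; field_simp
  have hDD : (DD n D0 r : ℝ) ≤ 1 / 100000 * a + a / 1999 := by
    unfold DD
    push_cast
    linarith
  have h1 : 1000 * (DD n D0 r : ℝ) ≤ k := by linarith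
  have h2 : 10000 * (D0 : ℝ) ≤ k := by linarith
  have h3 : (10000 : ℝ) ≤ k := by linarith
  have hq : 649 / 1000 * a ≤ (k : ℝ) - DD n D0 r := by linarith
  have hq0 : 0 < (k : ℝ) - DD n D0 r := by
    have : 0 < 649 / 1000 * a := by positivity
    linarith
  have hT := b3n_T n (r - 1) ((k : ℝ) - DD n D0 r) hL hs (by rw [← ha]; exact hq)
  have hr2 : r - 1 - 1 = r - 2 := by omega
  rw [hr2] at hT
  have hT0 : 0 ≤ (n : ℝ) * (n.choose (r - 1) : ℝ) / ((k : ℝ) - DD n D0 r) ^ (r - 2) := by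
    positivity
  have hD1 : (D0 : ℝ) / ((k : ℝ) - DD n D0 r) ≤ 16 / 1000000 := by
    rw [div_le_iff₀ hq0]
    linarith
  have hD2 : 0 ≤ (D0 : ℝ) / ((k : ℝ) - DD n D0 r) := by positivity
  have hn1 : (1 : ℝ) / n ≤ 1 / 1000000 := div_le_div_of_nonneg_left (by norm_num) (by norm_num) hn6
  have hn2 : (0 : ℝ) < 1 / n := by positivity
  refine ⟨hr4, by exact_mod_cast h1, by exact_mod_cast h2, by exact_mod_cast h3, by linarith, ?_⟩
  linarith

end Pool.Agent.Helper8.UN
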