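import Pool.Agent.Helper8.UN.Stmts

set_option autoImplicit false

open Finset

namespace Pool.Agent.Helper8.UN

lemma f2_CC {n : ℕ} (E : Finset (Finset (Fin n))) (W : Finset (Fin n)) (k : ℕ) (f : Fin n → ℕ) :
    f ∈ CC E W k ↔ ((∀ v ∈ W, 1 ≤ f v ∧ f v ≤ k) ∧ ∀ v, v ∉ W → f v = 0) ∧ Prp E W f := by
  classical
  unfold CC
  rw [Finset.mem_filter, Fintype.mem_piFinset]
  refine and_congr_left fun _ => ?_
  constructor
  · intro h
    refine ⟨fun v hv => ?_, fun v hv => ?_⟩
    · have := h v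
      rw [if_pos hv, Finset.mem_Icc] at this
      exact this
    · have := h v
      rw [if_neg hv, Finset.mem_singleton] at this
      exact this
  · rintro ⟨h1, h2⟩ v
    by_cases hv : v ∈ W
    · rw [if_pos hv, Finset.mem_Icc]; exact h1 v hv
    · rw [if_neg hv, Finset.mem_singleton]; exact h2 v hv

lemma f2_SS {n : ℕ} (E : Finset (Finset (Fin n))) (W : Finset (Fin n)) (k : ℕ) (f : Fin n → ℕ) :
    f ∈ SS E W k ↔ f ∈ CC E W k ∧ ∀ i, 1 ≤ i → i ≤ k → ∃ v ∈ W, f v = i := by
  unfold SS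
  refine (@Finset.mem_filter (Fin n → ℕ) (fun f => ∀ i ∈ Finset.Icc 1 k, ∃ v ∈ W, f v = i)
    (fun _ => Classical.propDecidable _) (CC E W k) f).trans ?_
  refine and_congr_right fun _ => ?_
  simp only [Finset.mem_Icc, and_imp]

/-- the class of the last colour -/
def f2_B {n : ℕ} (W : Finset (Fin n)) (k : ℕ) (f : Fin n → ℕ) : Finset (Fin n) :=
  W.filter (fun v => f v = k + 1)

/-- remove the class -/
def f2_i {n : ℕ} (B : Finset (Fin n)) (f : Fin n → ℕ) : Fin n → ℕ :=
  fun v => if v ∈ B then 0 else f v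

/-- add the class -/
def f2_j {n : ℕ} (B : Finset (Fin n)) (k : ℕ) (f : Fin n → ℕ) : Fin n → ℕ :=
  fun v => if v ∈ B then k + 1 else f v

lemma f2_al {n : ℕ} (E : Finset (Finset (Fin n))) (W : Finset (Fin n)) (k : ℕ) (f : Fin n → ℕ)
    (hf : f ∈ CC E W (k + 1)) : f2_B W k f ⊆ W ∧ Pool.Agent.Helper89.UB.Al E (f2_B W k f) := by
  rw [f2_CC] at hf
  obtain ⟨-, h3⟩ := hf
  refine ⟨Finset.filter_subset _ _, ?_⟩
  intro e he hsub
  obtain ⟨u, hu, v, hv, huv⟩ := h3 e he (hsub.trans (Finset.filter_subset _ _))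
  have h1 := (Finset.mem_filter.mp (hsub hu)).2
  have h2 := (Finset.mem_filter.mp (hsub hv)).2
  exact huv (h1.trans h2.symm)

lemma f2_imem {n : ℕ} (E : Finset (Finset (Fin n))) (W B : Finset (Fin n)) (k : ℕ)
    (f : Fin n → ℕ) (hf : f ∈ CC E W (k + 1)) (hB : f2_B W k f = B) :
    f2_i B f ∈ CC E (W \ B) k := by
  rw [f2_CC] at hf ⊢
  obtain ⟨⟨h1, h2⟩, h3⟩ := hf
  have hmem : ∀ v, v ∈ B ↔ v ∈ W ∧ f v = k + 1 := by
    intro v; rw [← hB, f2_B, Finset.mem_filter]
  refine ⟨⟨fun v hv => ?_, fun v hv => ?_⟩, ?_⟩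
  · rw [Finset.mem_sdiff] at hv
    have h4 := h1 v hv.1
    have h5 : f v ≠ k + 1 := fun h => hv.2 ((hmem v).mpr ⟨hv.1, h⟩)
    simp only [f2_i, if_neg hv.2]
    omega
  · by_cases hvB : v ∈ B
    · simp only [f2_i, if_pos hvB]
    · have hvW : v ∉ W := fun h => hv (Finset.mem_sdiff.mpr ⟨h, hvB⟩)
      simp only [f2_i, if_neg hvB]
      exact h2 v hvW
  · intro e he hsub
    obtain ⟨u, hu, v, hv, huv⟩ := h3 e he (hsub.trans Finset.sdiff_subset)
    refine ⟨u, hu, v, hv, ?_⟩
    have hu' := (Finset.mem_sdiff.mp (hsub hu)).2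
    have hv' := (Finset.mem_sdiff.mp (hsub hv)).2
    simp only [f2_i, if_neg hu', if_neg hv']
    exact huv

lemma f2_jmem {n : ℕ} (E : Finset (Finset (Fin n))) (W B : Finset (Fin n)) (k : ℕ)
    (g : Fin n → ℕ) (hBW : B ⊆ W) (hAl : Pool.Agent.Helper89.UB.Al E B)
    (hg : g ∈ CC E (W \ B) k) :
    f2_j B k g ∈ CC E W (k + 1) ∧ f2_B W k (f2_j B k g) = B := by
  rw [f2_CC] at hg
  obtain ⟨⟨h1, h2⟩, h3⟩ := hg
  constructor
  · rw [f2_CC]
    refine ⟨⟨fun v hv => ?_, fun v hv => ?_⟩, ?_⟩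
    · by_cases hvB : v ∈ B
      · simp only [f2_j, if_pos hvB]; omega
      · have := h1 v (Finset.mem_sdiff.mpr ⟨hv, hvB⟩)
        simp only [f2_j, if_neg hvB]; omega
    · have hvB : v ∉ B := fun h => hv (hBW h)
      simp only [f2_j, if_neg hvB]
      exact h2 v (fun h => hv (Finset.mem_sdiff.mp h).1)
    · intro e he hsub
      by_contra hcon
      push Not at hcon
      by_cases hex : ∃ u ∈ e, u ∈ B
      · obtain ⟨u, hu, huB⟩ := hex
        refine hAl e he ?_
        intro v hv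
        by_contra hvB
        have h4 := hcon u hu v hv
        simp only [f2_j, if_pos huB, if_neg hvB] at h4
        have h5 := h1 v (Finset.mem_sdiff.mpr ⟨hsub hv, hvB⟩)
        omega
      · push Not at hex
        obtain ⟨u, hu, v, hv, huv⟩ := h3 e he (fun v hv =>
          Finset.mem_sdiff.mpr ⟨hsub hv, hex v hv⟩)
        have h4 := hcon u hu v hv
        simp only [f2_j, if_neg (hex u hu), if_neg (hex v hv)] at h4
        exact huv h4
  · ext v
    rw [f2_B, Finset.mem_filter]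
    constructor
    · rintro ⟨hv, h4⟩
      by_contra hvB
      simp only [f2_j, if_neg hvB] at h4
      have h5 := h1 v (Finset.mem_sdiff.mpr ⟨hv, hvB⟩)
      omega
    · intro hv
      refine ⟨hBW hv, ?_⟩
      simp only [f2_j, if_pos hv]

lemma f2_ji {n : ℕ} (W B : Finset (Fin n)) (k : ℕ) (f : Fin n → ℕ) (hB : f2_B W k f = B) :
    f2_j B k (f2_i B f) = f := by
  funext v
  by_cases hvB : v ∈ B
  · have h : v ∈ W ∧ f v = k + 1 := by
      rw [← hB, f2_B, Finset.mem_filter] at hvB; exact hvB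
    simp only [f2_j, if_pos hvB]
    exact h.2.symm
  · simp only [f2_j, f2_i, if_neg hvB]

lemma f2_ij {n : ℕ} (E : Finset (Finset (Fin n))) (W B : Finset (Fin n)) (k : ℕ)
    (g : Fin n → ℕ) (hg : g ∈ CC E (W \ B) k) : f2_i B (f2_j B k g) = g := by
  rw [f2_CC] at hg
  funext v
  by_cases hvB : v ∈ B
  · simp only [f2_i, if_pos hvB]
    exact (hg.1.2 v (fun h => (Finset.mem_sdiff.mp h).2 hvB)).symm
  · simp only [f2_j, f2_i, if_neg hvB]

lemma f2_fib {n : ℕ} (E : Finset (Finset (Fin n))) (W B : Finset (Fin n)) (k : ℕ)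
    (hBW : B ⊆ W) (hAl : Pool.Agent.Helper89.UB.Al E B) :
    ((CC E W (k + 1)).filter (fun f => f2_B W k f = B)).card = PP E (W \ B) k := by
  unfold PP
  refine Finset.card_nbij' (f2_i B) (f2_j B k) ?_ ?_ ?_ ?_
  · intro f hf
    rw [Finset.mem_coe, Finset.mem_filter] at hf
    exact f2_imem E W B k f hf.1 hf.2
  · intro g hg
    rw [Finset.mem_coe, Finset.mem_filter]
    exact f2_jmem E W B k g hBW hAl hg
  · intro f hf
    rw [Finset.mem_coe, Finset.mem_filter] at hf
    exact f2_ji W B k f hf.2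
  · intro g hg
    exact f2_ij E W B k g hg

theorem st_F2 : ST_F2 := by
  classical
  intro n k E W _
  constructor
  · unfold PP
    rw [Finset.card_eq_sum_card_fiberwise (f := f2_B W k)
      (t := W.powerset.filter (fun B => Pool.Agent.Helper89.UB.Al E B))]
    · refine Finset.sum_congr (Finset.filter_congr_decidable _ _ _) fun B hB => ?_
      rw [Finset.mem_filter, Finset.mem_powerset] at hB
      exact f2_fib E W B k hB.1 hB.2
    · intro f hf
      rw [Finset.mem_coe, Finset.mem_filter, Finset.mem_powerset]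
      exact f2_al E W k f hf
  · unfold AA
    rw [Finset.card_eq_sum_card_fiberwise (f := f2_B W k)
      (t := W.powerset.filter (fun B => B.Nonempty ∧ Pool.Agent.Helper89.UB.Al E B))]
    · refine Finset.sum_congr (Finset.filter_congr_decidable _ _ _) fun B hB => ?_
      rw [Finset.mem_filter, Finset.mem_powerset] at hB
      obtain ⟨hBW, hBn, hAl⟩ := hB
      refine Finset.card_nbij' (f2_i B) (f2_j B k) ?_ ?_ ?_ ?_
      · intro f hf
        rw [Finset.mem_coe, Finset.mem_filter, f2_SS] at hf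
        obtain ⟨⟨hf1, hf2⟩, hf3⟩ := hf
        rw [Finset.mem_coe, f2_SS]
        refine ⟨f2_imem E W B k f hf1 hf3, ?_⟩
        intro c hc1 hc2
        obtain ⟨v, hv, hvc⟩ := hf2 c hc1 (by omega)
        have hvB : v ∉ B := by
          intro h
          rw [← hf3, f2_B, Finset.mem_filter] at h
          omega
        refine ⟨v, Finset.mem_sdiff.mpr ⟨hv, hvB⟩, ?_⟩
        simp only [f2_i, if_neg hvB]
        exact hvc
      · intro g hg
        rw [Finset.mem_coe, f2_SS] at hg
        obtain ⟨hg1, hg2⟩ := hg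
        have h1 := f2_jmem E W B k g hBW hAl hg1
        rw [Finset.mem_coe, Finset.mem_filter, f2_SS]
        refine ⟨⟨h1.1, ?_⟩, h1.2⟩
        intro c hc1 hc2
        rcases Nat.lt_or_ge k c with hck | hck
        · obtain ⟨v, hv⟩ := hBn
          refine ⟨v, hBW hv, ?_⟩
          simp only [f2_j, if_pos hv]
          omega
        · obtain ⟨v, hv, hvc⟩ := hg2 c hc1 hck
          rw [Finset.mem_sdiff] at hv
          refine ⟨v, hv.1, ?_⟩
          simp only [f2_j, if_neg hv.2]
          exact hvc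
      · intro f hf
        rw [Finset.mem_coe, Finset.mem_filter] at hf
        exact f2_ji W B k f hf.2
      · intro g hg
        rw [Finset.mem_coe, f2_SS] at hg
        exact f2_ij E W B k g hg.1
    · intro f hf
      rw [Finset.mem_coe, f2_SS] at hf
      rw [Finset.mem_coe, Finset.mem_filter, Finset.mem_powerset]
      have h1 := f2_al E W k f hf.1
      refine ⟨h1.1, ?_, h1.2⟩
      obtain ⟨v, hv, hvc⟩ := hf.2 (k + 1) (by omega) le_rfl
      exact ⟨v, by rw [f2_B, Finset.mem_filter]; exact ⟨hv, hvc⟩⟩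

end Pool.Agent.Helper8.UN
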