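import Pool.Agent.Helper5.UN.F2

set_option autoImplicit false

open Finset

namespace Pool.Agent.Helper8.UN

lemma exm_le {n : ℕ} (E : Finset (Finset (Fin n))) (W A : Finset (Fin n)) (k : ℕ)
    (_hAW : A ⊆ W) :
    ((CC E W (k + 1)).filter (fun f => A ⊆ f2_B W k f)).card ≤ PP E (W \ A) (k + 1) := by
  unfold PP
  refine Finset.card_le_card_of_injOn (f2_i A) ?_ ?_
  · intro f hf
    rw [Finset.mem_coe, Finset.mem_filter, f2_CC] at hf
    obtain ⟨⟨⟨h1, h2⟩, h3⟩, h4⟩ := hf
    rw [Finset.mem_coe, f2_CC]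
    refine ⟨⟨fun v hv => ?_, fun v hv => ?_⟩, ?_⟩
    · rw [Finset.mem_sdiff] at hv
      simp only [f2_i, if_neg hv.2]
      exact h1 v hv.1
    · by_cases hvA : v ∈ A
      · simp only [f2_i, if_pos hvA]
      · simp only [f2_i, if_neg hvA]
        exact h2 v (fun h => hv (Finset.mem_sdiff.mpr ⟨h, hvA⟩))
    · intro e he hsub
      obtain ⟨u, hu, v, hv, huv⟩ := h3 e he (hsub.trans Finset.sdiff_subset)
      refine ⟨u, hu, v, hv, ?_⟩
      have hu' := (Finset.mem_sdiff.mp (hsub hu)).2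
      have hv' := (Finset.mem_sdiff.mp (hsub hv)).2
      simp only [f2_i, if_neg hu', if_neg hv']
      exact huv
  · intro f hf g hg hfg
    rw [Finset.mem_coe, Finset.mem_filter] at hf hg
    funext v
    by_cases hvA : v ∈ A
    · have h1 := (Finset.mem_filter.mp (hf.2 hvA)).2
      have h2 := (Finset.mem_filter.mp (hg.2 hvA)).2
      rw [h1, h2]
    · have := congrFun hfg v
      simp only [f2_i, if_neg hvA] at this
      exact this

theorem st_EXM (hF1 : ST_F1) (_hF2 : ST_F2) : ST_EXM := by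
  classical
  intro n D k E W a hTwo hBD hDk ha
  have hkD : (0 : ℝ) < (k : ℝ) + 1 - D := by
    have : (D : ℝ) < (k : ℝ) + 1 := by exact_mod_cast hDk
    linarith
  -- the sum over colourings
  have hsum : ∑ B ∈ W.powerset.filter (fun B => Pool.Agent.Helper89.UB.Al E B),
      (PP E (W \ B) k : ℝ) * (1 + a) ^ B.card =
      ∑ f ∈ CC E W (k + 1), (1 + a) ^ (f2_B W k f).card := by
    rw [← Finset.sum_fiberwise_of_maps_to (s := CC E W (k + 1)) (g := f2_B W k)
      (t := W.powerset.filter (fun B => Pool.Agent.Helper89.UB.Al E B))]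
    · refine Finset.sum_congr (Finset.filter_congr_decidable _ _ _) fun B hB => ?_
      rw [Finset.mem_filter, Finset.mem_powerset] at hB
      rw [← f2_fib E W B k hB.1 hB.2]
      rw [Finset.sum_congr rfl (g := fun _ => (1 + a) ^ B.card)]
      · rw [Finset.sum_const, nsmul_eq_mul]
      · intro f hf
        rw [(Finset.mem_filter.mp hf).2]
    · intro f hf
      rw [Finset.mem_filter, Finset.mem_powerset]
      exact f2_al E W k f hf
  have hexp : ∀ f ∈ CC E W (k + 1), (1 + a) ^ (f2_B W k f).card =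
      ∑ A ∈ W.powerset, if A ⊆ f2_B W k f then a ^ A.card else 0 := by
    intro f hf
    have h1 := Finset.sum_pow_mul_eq_add_pow a 1 (f2_B W k f)
    rw [add_comm 1 a, ← h1]
    rw [← Finset.sum_filter]
    have h2 : W.powerset.filter (fun A => A ⊆ f2_B W k f) = (f2_B W k f).powerset := by
      ext A
      rw [Finset.mem_filter, Finset.mem_powerset, Finset.mem_powerset]
      exact ⟨fun h => h.2, fun h => ⟨h.trans (f2_al E W k f hf).1, h⟩⟩
    rw [h2]
    refine Finset.sum_congr rfl fun A _ => ?_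
    rw [one_pow, mul_one]
  have hfin : ∑ f ∈ CC E W (k + 1), (1 + a) ^ (f2_B W k f).card ≤
      ∑ A ∈ W.powerset, a ^ A.card * (PP E W (k + 1) / ((k : ℝ) + 1 - D) ^ A.card) := by
    rw [Finset.sum_congr rfl hexp, Finset.sum_comm]
    refine Finset.sum_le_sum fun A hA => ?_
    rw [Finset.mem_powerset] at hA
    rw [← Finset.sum_filter, Finset.sum_const, nsmul_eq_mul, mul_comm]
    refine mul_le_mul_of_nonneg_left ?_ (by positivity)
    rw [le_div_iff₀ (by positivity)]
    have h1 := (hF1 n D (k + 1) E (W \ A) A hTwo hBD Finset.sdiff_disjoint).1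
    rw [Finset.sdiff_union_of_subset hA] at h1
    have h2 : ((k : ℝ) + 1 - D) = ((k + 1 - D : ℕ) : ℝ) := by
      rw [Nat.cast_sub hDk.le]; push_cast; ring
    rw [h2]
    have h3 := exm_le E W A k hA
    calc (((CC E W (k + 1)).filter (fun f => A ⊆ f2_B W k f)).card : ℝ) *
          ((k + 1 - D : ℕ) : ℝ) ^ A.card
        ≤ (PP E (W \ A) (k + 1) : ℝ) * ((k + 1 - D : ℕ) : ℝ) ^ A.card := by
          refine mul_le_mul_of_nonneg_right ?_ (by positivity)
          exact_mod_cast h3
      _ = (((k + 1 - D) ^ A.card * PP E (W \ A) (k + 1) : ℕ) : ℝ) := by push_cast; ring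
      _ ≤ (PP E W (k + 1) : ℝ) := by exact_mod_cast h1
  have hlast : ∑ A ∈ W.powerset, a ^ A.card * (PP E W (k + 1) / ((k : ℝ) + 1 - D) ^ A.card) =
      PP E W (k + 1) * (1 + a / ((k : ℝ) + 1 - D)) ^ W.card := by
    have h1 := Finset.sum_pow_mul_eq_add_pow (a / ((k : ℝ) + 1 - D)) 1 W
    rw [add_comm 1 (a / ((k : ℝ) + 1 - D)), ← h1, Finset.mul_sum]
    refine Finset.sum_congr rfl fun A _ => ?_
    rw [one_pow, mul_one, div_pow]
    ring
  calc _ = ∑ f ∈ CC E W (k + 1), (1 + a) ^ (f2_B W k f).card := by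
        rw [← hsum]
    _ ≤ _ := hfin
    _ = _ := hlast

end Pool.Agent.Helper8.UN
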